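import Pool.Agent.N979.P1.Stm

/-! PROJECT P1 (helper979), leaf KLD: the function `k`, by helper289. -/

set_option autoImplicit false

open MeasureTheory Metric Set Filter Topology InnerProductGeometry Matrix

namespace Pool.Agent.N289.P1.KLD

open Pool.Agent.H241R3.FV Pool.Agent.N526.CP Pool.Agent.N979.P1
open scoped Pointwise

lemma inner2 (x y : E 2) : inner ℝ x y = x 0 * y 0 + x 1 * y 1 := by
  simp [PiLp.inner_apply, Fin.sum_univ_two]
  ring

lemma norm2 (x : E 2) : ‖x‖ ^ 2 = x 0 ^ 2 + x 1 ^ 2 := by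
  rw [← real_inner_self_eq_norm_sq, inner2]
  ring

lemma apply_le (x : E 2) (i : Fin 2) : |x i| ≤ ‖x‖ := by
  have := PiLp.norm_apply_le x i
  rwa [Real.norm_eq_abs] at this

lemma clamp_odd {a z : ℝ} (ha : 0 ≤ a) : max (-a) (min a (-z)) = -max (-a) (min a z) := by
  simp only [max_def, min_def]
  split_ifs <;> linarith

lemma Mc_odd {t : ℝ} (ht : 0 < t) (z : E 2) : Mc t !₂[z 0, -(z 1)] = -Mc t z := by
  have h := clamp_odd (a := t * |z 0|) (z := z 1) (by positivity)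
  unfold Mc
  simpa using h

lemma Mc_zero (t : ℝ) : Mc t 0 = 0 := by simp [Mc]

lemma Mc_lip {t : ℝ} (ht : 0 < t) (z z' : E 2) : |Mc t z - Mc t z'| ≤ (1 + t) * ‖z - z'‖ := by
  have h0 : |t * |z 0| - (t * |z' 0|)| ≤ (1 + t) * ‖z - z'‖ := by
    rw [← mul_sub, abs_mul, abs_of_pos ht]
    have h1 : |(|z 0| - |z' 0|)| ≤ |z 0 - z' 0| := abs_abs_sub_abs_le _ _
    have h2 : |z 0 - z' 0| ≤ ‖z - z'‖ := by
      have := apply_le (z - z') 0
      rwa [PiLp.sub_apply] at this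
    have h3 := norm_nonneg (z - z')
    nlinarith [mul_le_mul_of_nonneg_left (h1.trans h2) ht.le]
  have h0' : |-(t * |z 0|) - -(t * |z' 0|)| ≤ (1 + t) * ‖z - z'‖ := by
    rw [neg_sub_neg, abs_sub_comm]
    exact h0
  have h4 : |z 1 - z' 1| ≤ (1 + t) * ‖z - z'‖ := by
    have h2 : |z 1 - z' 1| ≤ ‖z - z'‖ := by
      have := apply_le (z - z') 1
      rwa [PiLp.sub_apply] at this
    have h3 := norm_nonneg (z - z')
    nlinarith
  unfold Mc
  refine (abs_max_sub_max_le_max _ _ _ _).trans (max_le h0' ?_)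
  exact (abs_min_sub_min_le_max _ _ _ _).trans (max_le h0 h4)

/-- the radial factor -/
noncomputable def ph (ρ r : ℝ) : ℝ := max 0 (1 - ρ / r)

lemma ph_nonneg (ρ r : ℝ) : 0 ≤ ph ρ r := le_max_left _ _

lemma ph_le {ρ r : ℝ} (hρ : 0 < ρ) (hr : 0 ≤ r) : ph ρ r ≤ 1 := by
  have : 0 ≤ ρ / r := by positivity
  exact max_le (by norm_num) (by linarith)

lemma ph_small {ρ r : ℝ} (hr : 0 < r) (h : r ≤ ρ) : ph ρ r = 0 := by
  apply max_eq_left
  have : 1 ≤ ρ / r := by rwa [le_div_iff₀ hr, one_mul]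
  linarith

lemma ph_large {ρ r : ℝ} (hr : 0 < r) (h : ρ ≤ r) : ph ρ r = 1 - ρ / r := by
  apply max_eq_right
  have : ρ / r ≤ 1 := by rwa [div_le_one hr]
  linarith

lemma ph_diff {ρ r r' : ℝ} (hρ : 0 < ρ) (hr : 0 < r) (hr' : 0 < r') : |ph ρ r - ph ρ r'| * r' ≤ |r - r'| := by
  rcases le_total r ρ with h | h
  · rcases le_total r' ρ with h' | h'
    · rw [ph_small hr h, ph_small hr' h', sub_self, abs_zero, zero_mul]
      exact abs_nonneg _
    · rw [ph_small hr h, ph_large hr' h', zero_sub, abs_neg, abs_of_nonneg, abs_of_nonpos (by linarith)]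
      · rw [sub_mul, div_mul_cancel₀ _ hr'.ne']
        linarith
      · have : ρ / r' ≤ 1 := by rwa [div_le_one hr']
        linarith
  · rcases le_total r' ρ with h' | h'
    · have h1 : ρ / r ≤ 1 := by rwa [div_le_one hr]
      rw [ph_large hr h, ph_small hr' h', sub_zero, abs_of_nonneg (by linarith), abs_of_nonneg (by linarith)]
      calc (1 - ρ / r) * r' ≤ (1 - ρ / r) * r := mul_le_mul_of_nonneg_left (by linarith) (by linarith)
        _ = r - ρ := by field_simp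
        _ ≤ r - r' := by linarith
    · rw [ph_large hr h, ph_large hr' h']
      have e : 1 - ρ / r - (1 - ρ / r') = (ρ / r) * ((r - r') / r') := by
        field_simp
        ring
      rw [e, abs_mul, abs_of_nonneg (by positivity : 0 ≤ ρ / r), abs_div, abs_of_pos hr', mul_assoc,
        div_mul_cancel₀ _ hr'.ne']
      have h1 : ρ / r ≤ 1 := by rwa [div_le_one hr]
      exact mul_le_of_le_one_left (abs_nonneg _) h1

/-- the product with a homogeneous Lipschitz function is Lipschitz -/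
lemma prod_lip {F : E 2 → ℝ} {K ρ : ℝ} (hρ : 0 < ρ) (hK : 0 ≤ K) (hF : ∀ z z', |F z - F z'| ≤ K * ‖z - z'‖)
    (hF0 : F 0 = 0) (z z' : E 2) :
    |ph ρ ‖z‖ * F z - ph ρ ‖z'‖ * F z'| ≤ 2 * K * ‖z - z'‖ := by
  have hb : ∀ w, |F w| ≤ K * ‖w‖ := by
    intro w
    have := hF w 0
    rwa [hF0, sub_zero, sub_zero] at this
  have hn := norm_nonneg (z - z')
  by_cases hz : z = 0
  · subst hz
    rw [hF0, mul_zero, zero_sub, abs_neg, abs_mul, abs_of_nonneg (ph_nonneg _ _), zero_sub, norm_neg]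
    have h1 := mul_le_mul (ph_le hρ (norm_nonneg z')) (hb z') (abs_nonneg _) (by norm_num)
    have h2 : 0 ≤ K * ‖z'‖ := by positivity
    linarith
  by_cases hz' : z' = 0
  · subst hz'
    rw [hF0, mul_zero, sub_zero, abs_mul, abs_of_nonneg (ph_nonneg _ _), sub_zero]
    have h1 := mul_le_mul (ph_le hρ (norm_nonneg z)) (hb z) (abs_nonneg _) (by norm_num)
    have h2 : 0 ≤ K * ‖z‖ := by positivity
    linarith
  have hr : 0 < ‖z‖ := norm_pos_iff.2 hz
  have hr' : 0 < ‖z'‖ := norm_pos_iff.2 hz'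
  have e : ph ρ ‖z‖ * F z - ph ρ ‖z'‖ * F z' = ph ρ ‖z‖ * (F z - F z') + (ph ρ ‖z‖ - ph ρ ‖z'‖) * F z' := by
    ring
  rw [e]
  refine (abs_add_le _ _).trans ?_
  rw [abs_mul, abs_mul, abs_of_nonneg (ph_nonneg _ _)]
  have h1 : ph ρ ‖z‖ * |F z - F z'| ≤ 1 * (K * ‖z - z'‖) :=
    mul_le_mul (ph_le hρ hr.le) (hF z z') (abs_nonneg _) (by norm_num)
  have h2 : |ph ρ ‖z‖ - ph ρ ‖z'‖| * |F z'| ≤ K * ‖z - z'‖ := by
    calc |ph ρ ‖z‖ - ph ρ ‖z'‖| * |F z'| ≤ |ph ρ ‖z‖ - ph ρ ‖z'‖| * (K * ‖z'‖) :=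
          mul_le_mul_of_nonneg_left (hb z') (abs_nonneg _)
      _ = K * (|ph ρ ‖z‖ - ph ρ ‖z'‖| * ‖z'‖) := by ring
      _ ≤ K * |‖z‖ - ‖z'‖| := mul_le_mul_of_nonneg_left (ph_diff hρ hr hr') hK
      _ ≤ K * ‖z - z'‖ := mul_le_mul_of_nonneg_left (abs_norm_sub_norm_le z z') hK
  linarith

section
variable {N L : ℕ} (D : Dat N L)

/-- the angular factor -/
noncomputable def FF (j : Fin N) (z : E 2) : ℝ := D.m0 j * z 1 + ∑ i, D.m j i * Mc (D.t i) z

lemma k_eq (z : E 2) : D.k z = D.ka * z 1 + ∑ j, ph (D.ρ j) ‖z‖ * FF D j z := rfl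

lemma FF_zero (j : Fin N) : FF D j 0 = 0 := by
  simp [FF, Mc_zero]

lemma FF_lip (ht : ∀ i, 0 < D.t i) (j : Fin N) (z z' : E 2) :
    |FF D j z - FF D j z'| ≤ (|D.m0 j| + ∑ i, |D.m j i| * (1 + D.t i)) * ‖z - z'‖ := by
  have e : FF D j z - FF D j z' = D.m0 j * (z 1 - z' 1) + ∑ i, D.m j i * (Mc (D.t i) z - Mc (D.t i) z') := by
    unfold FF
    simp only [mul_sub, Finset.sum_sub_distrib]
    ring
  rw [e, add_mul, Finset.sum_mul]
  refine (abs_add_le _ _).trans (add_le_add ?_ ?_)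
  · rw [abs_mul]
    apply mul_le_mul_of_nonneg_left _ (abs_nonneg _)
    have := apply_le (z - z') 1
    rwa [PiLp.sub_apply] at this
  · refine (Finset.abs_sum_le_sum_abs _ _).trans (Finset.sum_le_sum fun i _ => ?_)
    rw [abs_mul, mul_assoc]
    exact mul_le_mul_of_nonneg_left (Mc_lip (ht i) z z') (abs_nonneg _)

lemma k_lip (hρ : ∀ j, 0 < D.ρ j) (ht : ∀ i, 0 < D.t i) : ∃ K : NNReal, LipschitzWith K D.k := by
  refine ⟨_, LipschitzWith.of_dist_le' (K := |D.ka| + ∑ j, 2 * (|D.m0 j| + ∑ i, |D.m j i| * (1 + D.t i))) ?_⟩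
  intro z z'
  rw [Real.dist_eq, dist_eq_norm, k_eq, k_eq, add_mul, Finset.sum_mul]
  have e : D.ka * z 1 + ∑ j, ph (D.ρ j) ‖z‖ * FF D j z - (D.ka * z' 1 + ∑ j, ph (D.ρ j) ‖z'‖ * FF D j z') =
      D.ka * (z 1 - z' 1) + ∑ j, (ph (D.ρ j) ‖z‖ * FF D j z - ph (D.ρ j) ‖z'‖ * FF D j z') := by
    rw [Finset.sum_sub_distrib]
    ring
  rw [e]
  refine (abs_add_le _ _).trans (add_le_add ?_ ?_)
  · rw [abs_mul]
    apply mul_le_mul_of_nonneg_left _ (abs_nonneg _)
    have := apply_le (z - z') 1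
    rwa [PiLp.sub_apply] at this
  · refine (Finset.abs_sum_le_sum_abs _ _).trans (Finset.sum_le_sum fun j _ => ?_)
    refine prod_lip (hρ j) ?_ (FF_lip D ht j) (FF_zero D j) z z'
    have : ∀ i, 0 ≤ |D.m j i| * (1 + D.t i) := fun i => by
      have := ht i
      positivity
    exact add_nonneg (abs_nonneg _) (Finset.sum_nonneg fun i _ => this i)

lemma norm_flip (z : E 2) : ‖(!₂[z 0, -(z 1)] : E 2)‖ = ‖z‖ := by
  have h1 := norm2 (!₂[z 0, -(z 1)] : E 2)
  have h2 := norm2 z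
  have h3 : ‖(!₂[z 0, -(z 1)] : E 2)‖ ^ 2 = ‖z‖ ^ 2 := by
    rw [h1, h2]
    simp
  exact (pow_left_inj₀ (norm_nonneg _) (norm_nonneg _) (by norm_num)).1 h3

lemma k_odd (ht : ∀ i, 0 < D.t i) (z : E 2) : D.k !₂[z 0, -(z 1)] = -D.k z := by
  rw [k_eq, k_eq, norm_flip, neg_add, ← Finset.sum_neg_distrib]
  congr 1
  · simp
  · apply Finset.sum_congr rfl
    intro j _
    rw [← mul_neg]
    congr 1
    unfold FF
    rw [neg_add, ← Finset.sum_neg_distrib]
    congr 1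
    · simp
    · apply Finset.sum_congr rfl
      intro i _
      rw [Mc_odd (ht i), mul_neg]

end

/-! ### differentiability -/

lemma diff_apply (i : Fin 2) (w : E 2) : DifferentiableAt ℝ (fun z : E 2 => z i) w :=
  (EuclideanSpace.proj (𝕜 := ℝ) i : E 2 →L[ℝ] ℝ).differentiableAt

lemma Mc_diff {t : ℝ} (w : E 2) (h0 : w 0 ≠ 0) (h1 : |w 1| ≠ t * |w 0|) :
    DifferentiableAt ℝ (Mc t) w := by
  have c0 : ContinuousAt (fun z : E 2 => t * |z 0|) w :=
    continuousAt_const.mul (diff_apply 0 w).continuousAt.abs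
  have c1 : ContinuousAt (fun z : E 2 => z 1) w := (diff_apply 1 w).continuousAt
  have d00 : DifferentiableAt ℝ (fun z : E 2 => |z 0|) w :=
    DifferentiableAt.comp (g := fun x : ℝ => |x|) w (differentiableAt_abs h0) (diff_apply 0 w)
  have d0 : DifferentiableAt ℝ (fun z : E 2 => t * |z 0|) w := (differentiableAt_const t).mul d00
  rcases lt_or_gt_of_ne h1 with h | h
  · have ev : ∀ᶠ z in 𝓝 w, Mc t z = z 1 := by
      have e1 : ∀ᶠ z : E 2 in 𝓝 w, |z 1| < t * |z 0| := c1.abs.eventually_lt c0 h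
      filter_upwards [e1] with z hz
      have h2 := abs_lt.1 hz
      unfold Mc
      rw [min_eq_right h2.2.le, max_eq_right h2.1.le]
    exact (diff_apply 1 w).congr_of_eventuallyEq ev
  · rcases lt_abs.1 h with h2 | h2
    · have ev : ∀ᶠ z in 𝓝 w, Mc t z = max (-(t * |z 0|)) (t * |z 0|) := by
        have e1 : ∀ᶠ z : E 2 in 𝓝 w, t * |z 0| < z 1 := c0.eventually_lt c1 h2
        filter_upwards [e1] with z hz
        unfold Mc
        rw [min_eq_left hz.le]
      by_cases ht : 0 ≤ t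
      · refine d0.congr_of_eventuallyEq ?_
        filter_upwards [ev] with z hz
        rw [hz, max_eq_right]
        have : 0 ≤ t * |z 0| := by positivity
        linarith
      · refine d0.neg.congr_of_eventuallyEq ?_
        filter_upwards [ev] with z hz
        rw [hz, max_eq_left]
        · rfl
        have : t * |z 0| ≤ 0 := mul_nonpos_of_nonpos_of_nonneg (by linarith) (abs_nonneg _)
        linarith
    · have ev : ∀ᶠ z in 𝓝 w, Mc t z = -(t * |z 0|) := by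
        have e1 : ∀ᶠ z : E 2 in 𝓝 w, t * |z 0| < -z 1 := c0.eventually_lt c1.neg h2
        filter_upwards [e1] with z hz
        unfold Mc
        rw [max_eq_left]
        exact (min_le_right _ _).trans (by linarith)
      exact d0.neg.congr_of_eventuallyEq ev

lemma ph_diffAt {ρ : ℝ} (w : E 2) (hw : w ≠ 0) (h : ‖w‖ ≠ ρ) :
    DifferentiableAt ℝ (fun z : E 2 => ph ρ ‖z‖) w := by
  have hr : 0 < ‖w‖ := norm_pos_iff.2 hw
  have dn : DifferentiableAt ℝ (fun z : E 2 => ‖z‖) w := (differentiableAt_id).norm ℝ hw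
  have di : DifferentiableAt ℝ (fun z : E 2 => ‖z‖⁻¹) w :=
    DifferentiableAt.comp (g := fun x : ℝ => x⁻¹) w (differentiableAt_inv hr.ne') dn
  have d1 : DifferentiableAt ℝ (fun z : E 2 => 1 - ρ / ‖z‖) w := by
    simp only [div_eq_mul_inv]
    exact (differentiableAt_const _).sub ((differentiableAt_const ρ).mul di)
  have c1 : ContinuousAt (fun z : E 2 => 1 - ρ / ‖z‖) w := d1.continuousAt
  have hne : 1 - ρ / ‖w‖ ≠ 0 := by
    intro h0
    apply h
    have : ρ / ‖w‖ = 1 := by linarith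
    rw [div_eq_one_iff_eq hr.ne'] at this
    exact this.symm
  rcases lt_or_gt_of_ne hne with h1 | h1
  · have ev : ∀ᶠ z : E 2 in 𝓝 w, ph ρ ‖z‖ = 0 := by
      filter_upwards [c1.eventually_lt continuousAt_const h1] with z hz
      exact max_eq_left hz.le
    exact (differentiableAt_const (0 : ℝ)).congr_of_eventuallyEq ev
  · have ev : ∀ᶠ z : E 2 in 𝓝 w, ph ρ ‖z‖ = 1 - ρ / ‖z‖ := by
      filter_upwards [continuousAt_const.eventually_lt c1 h1] with z hz
      exact max_eq_right (le_of_lt hz)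
    exact d1.congr_of_eventuallyEq ev

section
variable {N L : ℕ} (D : Dat N L)

lemma k_diff (w : E 2) (hw : w ≠ 0) (hρ : ∀ j, ‖w‖ ≠ D.ρ j) (h0 : w 0 ≠ 0)
    (h1 : ∀ i, |w 1| ≠ D.t i * |w 0|) : DifferentiableAt ℝ D.k w := by
  have e : D.k = fun z => D.ka * z 1 + ∑ j, ph (D.ρ j) ‖z‖ * (D.m0 j * z 1 + ∑ i, D.m j i * Mc (D.t i) z) := rfl
  rw [e]
  refine ((differentiableAt_const _).mul (diff_apply 1 w)).add ?_
  refine DifferentiableAt.fun_sum fun j _ => ?_
  refine (ph_diffAt w hw (hρ j)).mul ?_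
  refine ((differentiableAt_const _).mul (diff_apply 1 w)).add ?_
  refine DifferentiableAt.fun_sum fun i _ => ?_
  exact (differentiableAt_const _).mul (Mc_diff w h0 (h1 i))

lemma k_diff_zero (hρ : ∀ j, 0 < D.ρ j) : DifferentiableAt ℝ D.k 0 := by
  have ev : ∀ᶠ z : E 2 in 𝓝 0, D.k z = D.ka * z 1 := by
    have h1 : ∀ᶠ z : E 2 in 𝓝 0, ∀ j, ‖z‖ < D.ρ j := by
      rw [eventually_all]
      intro j
      have h2 : ContinuousAt (fun z : E 2 => ‖z‖) 0 := continuous_norm.continuousAt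
      exact h2.eventually_lt continuousAt_const (by simpa using hρ j)
    filter_upwards [h1] with z hz
    rw [k_eq, Finset.sum_eq_zero, add_zero]
    intro j _
    by_cases h0 : z = 0
    · rw [h0, FF_zero, mul_zero]
    · rw [ph_small (norm_pos_iff.2 h0) (hz j).le, zero_mul]
  exact ((differentiableAt_const D.ka).mul (diff_apply 1 0)).congr_of_eventuallyEq ev

end

/-! ### null sets -/

lemma null_line (v : E 2) (hv : v ≠ 0) : (sg 2) {θ : Sph 2 | inner ℝ v (θ : E 2) = 0} = 0 := by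
  have hms : MeasurableSet {θ : Sph 2 | inner ℝ v (θ : E 2) = 0} := by
    apply measurableSet_eq_fun
    · exact (continuous_const.inner continuous_subtype_val).measurable
    · exact measurable_const
  have h1 : (sig 2) {θ : Sph 2 | inner ℝ v (θ : E 2) = 0} = 0 := by
    unfold sig
    rw [Measure.toSphere_apply' _ hms]
    have h2 : (volume : Measure (E 2)) (Ioo (0 : ℝ) 1 • ((Subtype.val '' {θ : Sph 2 | inner ℝ v (θ : E 2) = 0}) : Set (E 2))) = 0 := by
      have h3 : (volume : Measure (E 2)) (((Submodule.span ℝ {v})ᗮ : Submodule ℝ (E 2)) : Set (E 2)) = 0 := by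
        apply Measure.addHaar_submodule
        intro htop
        have h4 : v ∈ (Submodule.span ℝ {v})ᗮ := by rw [htop]; trivial
        rw [Submodule.mem_orthogonal_singleton_iff_inner_right] at h4
        exact hv (inner_self_eq_zero.1 h4)
      refine measure_mono_null ?_ h3
      rintro x ⟨c, hc, y, ⟨θ, hθ, rfl⟩, rfl⟩
      change c • (θ : E 2) ∈ (Submodule.span ℝ {v})ᗮ
      rw [Submodule.mem_orthogonal_singleton_iff_inner_right, inner_smul_right]
      have : inner ℝ v (θ : E 2) = 0 := hθ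
      rw [this, mul_zero]
    rw [h2, mul_zero]
  unfold sg
  rw [Measure.smul_apply, h1, smul_zero]

theorem main : S_KLD := by
  intro N L D hρ ht
  refine ⟨k_lip D hρ ht, k_odd D ht, ?_⟩
  intro z hz
  by_cases hz0 : z = 0
  · refine Eventually.of_forall fun θ => ?_
    have h0 : Ax θ z = 0 := by
      rw [hz0]
      ext i
      fin_cases i <;> simp [Ax]
    rw [h0]
    exact k_diff_zero D hρ
  -- the vectors
  have hnz : 0 < z 0 ^ 2 + z 1 ^ 2 := by
    rw [← norm2]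
    have := norm_pos_iff.2 hz0
    positivity
  have hv : ∀ s : ℝ, (!₂[z 1 - s * z 0, -z 0 - s * z 1] : E 2) ≠ 0 := by
    intro s h0
    have h1 := norm2 (!₂[z 1 - s * z 0, -z 0 - s * z 1] : E 2)
    rw [h0, norm_zero] at h1
    have h2 : (z 1 - s * z 0) ^ 2 + (-z 0 - s * z 1) ^ 2 = 0 := by
      have e0 : (0 : E 2) 0 = z 1 - s * z 0 := by rw [← h0]; simp
      have e1 : (0 : E 2) 1 = -z 0 - s * z 1 := by rw [← h0]; simp
      rw [← e0, ← e1]
      simp
    have h3 : (z 1 - s * z 0) ^ 2 + (-z 0 - s * z 1) ^ 2 = (1 + s ^ 2) * (z 0 ^ 2 + z 1 ^ 2) := by ring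
    rw [h3] at h2
    have : 0 < (1 + s ^ 2) * (z 0 ^ 2 + z 1 ^ 2) := by positivity
    linarith
  have a0 : ∀ᵐ θ : Sph 2 ∂(sg 2), inner ℝ z (θ : E 2) ≠ 0 := by
    rw [ae_iff]
    simpa using null_line z hz0
  have a1 : ∀ i, ∀ᵐ θ : Sph 2 ∂(sg 2), inner ℝ (!₂[z 1 - D.t i * z 0, -z 0 - D.t i * z 1] : E 2) (θ : E 2) ≠ 0 := by
    intro i
    rw [ae_iff]
    simpa using null_line _ (hv (D.t i))
  have a2 : ∀ i, ∀ᵐ θ : Sph 2 ∂(sg 2), inner ℝ (!₂[z 1 - (-D.t i) * z 0, -z 0 - (-D.t i) * z 1] : E 2) (θ : E 2) ≠ 0 := by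
    intro i
    rw [ae_iff]
    simpa using null_line _ (hv (-D.t i))
  filter_upwards [a0, ae_all_iff.2 a1, ae_all_iff.2 a2] with θ b0 b1 b2
  have hw0 : Ax θ z 0 = inner ℝ z (θ : E 2) := by simp [Ax]
  have hw1 : Ax θ z 1 = inner ℝ z (Jr (θ : E 2)) := by simp [Ax]
  have hw1' : Ax θ z 1 = -(z 0 * (θ : E 2) 1) + z 1 * (θ : E 2) 0 := by
    rw [hw1, inner2]
    simp [Jr]
  have hw0' : Ax θ z 0 = z 0 * (θ : E 2) 0 + z 1 * (θ : E 2) 1 := by rw [hw0, inner2]
  have hθ : (θ : E 2) 0 ^ 2 + (θ : E 2) 1 ^ 2 = 1 := by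
    rw [← norm2, norm_sph, one_pow]
  have hnorm : ‖Ax θ z‖ = ‖z‖ := by
    have h1 := norm2 (Ax θ z)
    have h2 := norm2 z
    have h3 : ‖Ax θ z‖ ^ 2 = ‖z‖ ^ 2 := by
      rw [h1, h2, hw0', hw1']
      calc (z 0 * (θ : E 2) 0 + z 1 * (θ : E 2) 1) ^ 2 + (-(z 0 * (θ : E 2) 1) + z 1 * (θ : E 2) 0) ^ 2
          = (z 0 ^ 2 + z 1 ^ 2) * ((θ : E 2) 0 ^ 2 + (θ : E 2) 1 ^ 2) := by ring
        _ = z 0 ^ 2 + z 1 ^ 2 := by rw [hθ, mul_one]
    exact (pow_left_inj₀ (norm_nonneg _) (norm_nonneg _) (by norm_num)).1 h3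
  apply k_diff D
  · rw [← norm_pos_iff, hnorm]
    exact norm_pos_iff.2 hz0
  · intro j
    rw [hnorm]
    exact hz j
  · rw [hw0]
    exact b0
  · intro i h
    have h1 : Ax θ z 1 = D.t i * Ax θ z 0 ∨ Ax θ z 1 = -(D.t i * Ax θ z 0) := by
      have h2 : |Ax θ z 1| = |D.t i * Ax θ z 0| := by
        rw [h, abs_mul, abs_of_pos (ht i)]
      exact abs_eq_abs.1 h2
    rcases h1 with h1 | h1
    · apply b1 i
      rw [inner2]
      rw [hw0', hw1'] at h1
      simp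
      linarith
    · apply b2 i
      rw [inner2]
      rw [hw0', hw1'] at h1
      simp
      linarith

end Pool.Agent.N289.P1.KLD
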